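import Pool.Agent.U175.DS.Defs

/-!
# The Euler factors of Artin L-functions: the definitions used in the statements
-/

set_option autoImplicit false

namespace Pool.Agent.U849.TG

open NumberField Polynomial Pool.Agent.U175.DS

attribute [local instance 10] DivisionRing.toRatAlgebra

/-- The inertia group at a maximal ideal `P` of the ring of all algebraic integers. -/
def inertia (P : Ideal ZBar) : Set GQ := {τ | ∀ x : ZBar, τ • x - x ∈ P}

/-- `σ` is a geometric Frobenius element at `P` (above `p`). -/
def IsGeomFrob (p : ℕ) (P : Ideal ZBar) (σ : GQ) : Prop := ∀ x : ZBar, x - (σ • x) ^ p ∈ P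

variable {n : ℕ}

/-- The matrices of the elements of the inertia group. -/
def inertiaImage (R : GQ →* GL (Fin n) ℂ) (P : Ideal ZBar) : Set (Matrix (Fin n) (Fin n) ℂ) :=
  (fun τ : GQ => ((R τ : GL (Fin n) ℂ) : Matrix (Fin n) (Fin n) ℂ)) '' inertia P

/-- The mean value of these matrices (`R` has finite image): the projection to the subspace of the vectors fixed by
inertia. -/
noncomputable def proj (R : GQ →* GL (Fin n) ℂ) (P : Ideal ZBar) : Matrix (Fin n) (Fin n) ℂ :=
  ((inertiaImage R P).ncard : ℂ)⁻¹ • ∑ᶠ M ∈ inertiaImage R P, M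

/-- `C p` is, for all `p ∉ S`, the multiset of the `n` eigenvalues of `R σ * proj R P`: the eigenvalues of the
geometric Frobenius elements on the vectors fixed by inertia, completed by zeros. So
`∏ (1 - c p^{-s})⁻¹`, `c ∈ C p`, is the Euler factor at `p` of the Artin L-function of `R`, also if `R` is ramified at
`p`. -/
def IsArtinFamily (S : Finset ℕ) (R : GQ →* GL (Fin n) ℂ) (C : ℕ → Multiset ℂ) : Prop :=
  ∀ p : ℕ, p.Prime → p ∉ S → ∀ P : Ideal ZBar, P.IsMaximal → (p : ZBar) ∈ P → ∀ σ : GQ,
    IsGeomFrob p P σ →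
      C p = (((R σ : GL (Fin n) ℂ) : Matrix (Fin n) (Fin n) ℂ) * proj R P).charpoly.roots

end Pool.Agent.U849.TG
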