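import Pool.Agent.U175.DS.Pub
import Pool.Agent.U849.TG.Def

/-!
# Properties of the local factors of Artin L-functions
-/

set_option autoImplicit false
set_option maxHeartbeats 400000

namespace Pool.Agent.U849.TG

open NumberField Polynomial Pool.Agent.U175.DS Pool.Agent.W569.FM Pool.Agent.W571.FM

attribute [local instance 10] DivisionRing.toRatAlgebra

variable {n : ℕ}

theorem one_mem_inertia (P : Ideal ZBar) : (1 : GQ) ∈ inertia P := by
  intro x
  rw [one_smul, sub_self]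
  exact P.zero_mem

theorem smul_mem_of_inertia {P : Ideal ZBar} {τ : GQ} (hτ : τ ∈ inertia P) {y : ZBar} (hy : y ∈ P) :
    τ • y ∈ P := by
  have h := P.add_mem (hτ y) hy
  rwa [sub_add_cancel] at h

theorem mul_mem_inertia {P : Ideal ZBar} {τ τ' : GQ} (h : τ ∈ inertia P) (h' : τ' ∈ inertia P) :
    τ * τ' ∈ inertia P := by
  intro x
  have h1 := P.add_mem (smul_mem_of_inertia h (h' x)) (h x)
  rw [smul_sub, smul_smul, sub_add_sub_cancel] at h1
  exact h1

theorem frob_smul_mem {p : ℕ} {P : Ideal ZBar} (hP : P.IsPrime) {σ : GQ}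
    (hσ : IsGeomFrob p P σ) {x : ZBar} (hx : x ∈ P) : σ • x ∈ P := by
  have h1 := P.sub_mem hx (hσ x)
  rw [sub_sub_cancel] at h1
  exact hP.mem_of_pow_mem _ h1

theorem frob_inv_smul_mem {p : ℕ} {P : Ideal ZBar} (hp : 0 < p) {σ : GQ}
    (hσ : IsGeomFrob p P σ) {y : ZBar} (hy : y ∈ P) : σ⁻¹ • y ∈ P := by
  have h1 := P.add_mem (hσ (σ⁻¹ • y)) (P.pow_mem_of_mem hy p hp)
  rw [smul_inv_smul, sub_add_cancel] at h1
  exact h1

theorem conj_mem_inertia {p : ℕ} {P : Ideal ZBar} (hP : P.IsPrime) {σ : GQ}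
    (hσ : IsGeomFrob p P σ) {τ : GQ} (h : τ ∈ inertia P) : σ * τ * σ⁻¹ ∈ inertia P := by
  intro x
  have h1 := frob_smul_mem hP hσ (h (σ⁻¹ • x))
  rw [smul_sub, smul_smul, smul_smul, smul_inv_smul] at h1
  exact h1

section
variable (R : GQ →* GL (Fin n) ℂ)

/-- the matrix -/
noncomputable def mat (g : GQ) : Matrix (Fin n) (Fin n) ℂ := ((R g : GL (Fin n) ℂ) : Matrix (Fin n) (Fin n) ℂ)

theorem mat_mul (g h : GQ) : mat R (g * h) = mat R g * mat R h := by
  unfold mat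
  rw [map_mul, Units.val_mul]

theorem mat_one : mat R 1 = 1 := by
  unfold mat
  rw [map_one, Units.val_one]

theorem finite_range (hR : IsOpen (R.ker : Set GQ)) : (Set.range (mat R)).Finite := by
  have hfin : Finite (GQ ⧸ R.ker) := Subgroup.quotient_finite_of_isOpen _ hR
  have h1 : Set.range (mat R) ⊆ Set.range fun q : GQ ⧸ R.ker =>
      ((QuotientGroup.kerLift R q : GL (Fin n) ℂ) : Matrix (Fin n) (Fin n) ℂ) := by
    rintro _ ⟨g, rfl⟩
    exact ⟨(g : GQ ⧸ R.ker), rfl⟩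
  exact (Set.finite_range _).subset h1

theorem finite_image (hR : IsOpen (R.ker : Set GQ)) (P : Ideal ZBar) :
    (inertiaImage R P).Finite :=
  (finite_range R hR).subset (by rintro _ ⟨τ, -, rfl⟩; exact ⟨τ, rfl⟩)

theorem card_pos (hR : IsOpen (R.ker : Set GQ)) (P : Ideal ZBar) : 0 < (inertiaImage R P).ncard := by
  rw [Set.ncard_pos (finite_image R hR P)]
  exact ⟨_, 1, one_mem_inertia P, rfl⟩

/-- the sum over the image, transported by an injective map of the image to itself -/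
theorem sum_perm (hR : IsOpen (R.ker : Set GQ)) (P : Ideal ZBar)
    (φ : Matrix (Fin n) (Fin n) ℂ → Matrix (Fin n) (Fin n) ℂ) (hφ : Function.Injective φ)
    (hm : ∀ M ∈ inertiaImage R P, φ M ∈ inertiaImage R P) :
    ∑ᶠ M ∈ inertiaImage R P, φ M = ∑ᶠ M ∈ inertiaImage R P, M := by
  classical
  have hf := finite_image R hR P
  rw [finsum_mem_eq_finite_toFinset_sum _ hf, finsum_mem_eq_finite_toFinset_sum _ hf]
  have h1 : hf.toFinset.image φ = hf.toFinset := by
    refine Finset.eq_of_subset_of_card_le ?_ ?_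
    · intro M hM
      obtain ⟨M', hM', rfl⟩ := Finset.mem_image.1 hM
      exact hf.mem_toFinset.2 (hm _ (hf.mem_toFinset.1 hM'))
    · rw [Finset.card_image_of_injective _ hφ]
  conv_rhs => rw [← h1]
  rw [Finset.sum_image fun x _ y _ h => hφ h]

theorem mat_mul_proj (hR : IsOpen (R.ker : Set GQ)) (P : Ideal ZBar) {τ : GQ} (hτ : τ ∈ inertia P) :
    mat R τ * proj R P = proj R P := by
  classical
  have hf := finite_image R hR P
  have h1 := sum_perm R hR P (fun M => mat R τ * M) (fun M M' h => by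
    have h2 : mat R τ⁻¹ * (mat R τ * M) = mat R τ⁻¹ * (mat R τ * M') := congrArg _ h
    rw [← mul_assoc, ← mul_assoc, ← mat_mul, inv_mul_cancel, mat_one, one_mul, one_mul] at h2
    exact h2) (by
    rintro _ ⟨τ', h', rfl⟩
    exact ⟨τ * τ', mul_mem_inertia hτ h', mat_mul R τ τ'⟩)
  unfold proj
  rw [Matrix.mul_smul]
  congr 1
  rw [finsum_mem_eq_finite_toFinset_sum _ hf] at h1 ⊢
  rw [Finset.mul_sum, h1]
  exact finsum_mem_eq_finite_toFinset_sum _ hf

theorem proj_mul_proj (hR : IsOpen (R.ker : Set GQ)) (P : Ideal ZBar) :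
    proj R P * proj R P = proj R P := by
  classical
  have hf := finite_image R hR P
  have hc : ((inertiaImage R P).ncard : ℂ) ≠ 0 := by exact_mod_cast (card_pos R hR P).ne'
  conv_lhs => lhs; unfold proj
  rw [finsum_mem_eq_finite_toFinset_sum _ hf, Matrix.smul_mul, Finset.sum_mul]
  have h1 : ∀ M ∈ hf.toFinset, M * proj R P = proj R P := by
    intro M hM
    obtain ⟨τ, hτ, rfl⟩ := hf.mem_toFinset.1 hM
    exact mat_mul_proj R hR P hτ
  rw [Finset.sum_congr rfl h1, Finset.sum_const, ← Set.ncard_eq_toFinset_card _ hf,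
    ← Nat.cast_smul_eq_nsmul ℂ, smul_smul, inv_mul_cancel₀ hc, one_smul]

theorem proj_comm (hR : IsOpen (R.ker : Set GQ)) {p : ℕ} {P : Ideal ZBar} (hP : P.IsPrime)
    (hp : 0 < p) {σ : GQ} (hσ : IsGeomFrob p P σ) : mat R σ * proj R P = proj R P * mat R σ := by
  classical
  have hf := finite_image R hR P
  have hinv : mat R σ * mat R σ⁻¹ = 1 := by rw [← mat_mul, mul_inv_cancel, mat_one]
  have hinv' : mat R σ⁻¹ * mat R σ = 1 := by rw [← mat_mul, inv_mul_cancel, mat_one]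
  have h1 := sum_perm R hR P (fun M => mat R σ * M * mat R σ⁻¹) (fun M M' h => by
    have h2 : mat R σ⁻¹ * (mat R σ * M * mat R σ⁻¹) * mat R σ =
        mat R σ⁻¹ * (mat R σ * M' * mat R σ⁻¹) * mat R σ := by
      rw [show mat R σ * M * mat R σ⁻¹ = mat R σ * M' * mat R σ⁻¹ from h]
    have e : ∀ X : Matrix (Fin n) (Fin n) ℂ, mat R σ⁻¹ * (mat R σ * X * mat R σ⁻¹) * mat R σ = X := by
      intro X
      rw [mul_assoc (mat R σ) X, ← mul_assoc (mat R σ⁻¹), hinv', one_mul, mul_assoc, hinv', mul_one]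
    rw [e, e] at h2
    exact h2) (by
    rintro _ ⟨τ, h', rfl⟩
    refine ⟨σ * τ * σ⁻¹, conj_mem_inertia hP hσ h', ?_⟩
    change mat R (σ * τ * σ⁻¹) = _
    rw [mat_mul, mat_mul]
    rfl)
  have h2 : mat R σ * (∑ᶠ M ∈ inertiaImage R P, M) * mat R σ⁻¹ = ∑ᶠ M ∈ inertiaImage R P, M := by
    refine Eq.trans ?_ h1
    rw [finsum_mem_eq_finite_toFinset_sum _ hf, finsum_mem_eq_finite_toFinset_sum _ hf,
      Finset.mul_sum, Finset.sum_mul]
  have h3 : mat R σ * (∑ᶠ M ∈ inertiaImage R P, M) = (∑ᶠ M ∈ inertiaImage R P, M) * mat R σ := by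
    conv_rhs => rw [← h2]
    rw [mul_assoc _ (mat R σ⁻¹), hinv', mul_one]
  unfold proj
  rw [Matrix.mul_smul, Matrix.smul_mul, h3]

theorem exists_exp (hR : IsOpen (R.ker : Set GQ)) : ∃ e : ℕ, 0 < e ∧ ∀ g, (mat R g) ^ e = 1 :=
  Pool.Agent.U175.DS.exists_exp R hR

/-- the eigenvalues on the vectors fixed by inertia have absolute value one -/
theorem norm_root (hR : IsOpen (R.ker : Set GQ)) {p : ℕ} {P : Ideal ZBar} (hP : P.IsPrime)
    (hp : 0 < p) {σ : GQ} (hσ : IsGeomFrob p P σ) {c : ℂ}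
    (hc : c ∈ (mat R σ * proj R P).charpoly.roots) : c = 0 ∨ ‖c‖ = 1 := by
  obtain ⟨e, he0, he⟩ := exists_exp R hR
  have hcomm : Commute (mat R σ) (proj R P) := proj_comm R hR hP hp hσ
  have hidem : ∀ k : ℕ, 0 < k → (proj R P) ^ k = proj R P := by
    intro k hk
    obtain ⟨k, rfl⟩ := Nat.exists_eq_succ_of_ne_zero hk.ne'
    clear hk
    induction k with
    | zero => exact pow_one _
    | succ k ih => rw [pow_succ, ih, proj_mul_proj R hR P]
  have h1 : (mat R σ * proj R P) ^ (2 * e) - (mat R σ * proj R P) ^ e = 0 := by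
    rw [hcomm.mul_pow, hcomm.mul_pow, hidem e he0, hidem (2 * e) (by omega), pow_mul', he, one_pow,
      one_mul, sub_self]
  have h2 : c ∈ spectrum ℂ (mat R σ * proj R P) :=
    Matrix.mem_spectrum_iff_isRoot_charpoly.2 (Polynomial.isRoot_of_mem_roots hc)
  have h3 := spectrum.subset_polynomial_aeval (mat R σ * proj R P) (X ^ (2 * e) - X ^ e : ℂ[X])
    ⟨c, h2, rfl⟩
  rw [map_sub, map_pow, map_pow, aeval_X, h1] at h3
  have h4 : c ^ (2 * e) - c ^ e = 0 := by
    by_cases hn : Nontrivial (Matrix (Fin n) (Fin n) ℂ)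
    · rw [spectrum.zero_eq] at h3
      simpa using h3
    · rw [not_nontrivial_iff_subsingleton] at hn
      rw [spectrum.of_subsingleton] at h2
      exact absurd h2 (Set.notMem_empty _)
  by_cases hc0 : c = 0
  · exact Or.inl hc0
  · right
    have h5 : c ^ e = 1 := by
      have h6 : c ^ e * (c ^ e - 1) = 0 := by
        rw [mul_sub, mul_one, ← pow_add, ← two_mul]
        exact h4
      exact sub_eq_zero.1 ((mul_eq_zero.1 h6).resolve_left (pow_ne_zero _ hc0))
    have h6 : ‖c‖ ^ e = 1 := by rw [← norm_pow, h5, norm_one]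
    exact (pow_eq_one_iff_of_nonneg (norm_nonneg _) he0.ne').1 h6

/-- all eigenvalues different from zero: no inertia -/
theorem inertia_trivial (hR : IsOpen (R.ker : Set GQ)) {P : Ideal ZBar} {σ : GQ}
    (h0 : (0 : ℂ) ∉ (mat R σ * proj R P).charpoly.roots) {τ : GQ} (hτ : τ ∈ inertia P) : R τ = 1 := by
  have h1 : (mat R σ * proj R P).charpoly.eval 0 ≠ 0 := by
    intro h
    exact h0 ((Polynomial.mem_roots (Matrix.charpoly_monic _).ne_zero).2 h)
  have h2 : (mat R σ * proj R P).det ≠ 0 := by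
    intro h
    apply h1
    rw [Matrix.eval_charpoly]
    simp only [map_zero, zero_sub, Matrix.det_neg, h, mul_zero]
  have h3 : (proj R P).det ≠ 0 := by
    intro h
    apply h2
    rw [Matrix.det_mul, h, mul_zero]
  have h4 : IsUnit (proj R P) := (Matrix.isUnit_iff_isUnit_det _).2 (isUnit_iff_ne_zero.2 h3)
  have h5 : mat R τ * proj R P = 1 * proj R P := by rw [mat_mul_proj R hR P hτ, one_mul]
  have h6 : mat R τ = 1 := h4.mul_right_cancel h5
  exact Units.ext h6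

theorem proj_eq_one (hR : IsOpen (R.ker : Set GQ)) {P : Ideal ZBar}
    (h : ∀ τ ∈ inertia P, R τ = 1) : proj R P = 1 := by
  have h1 : inertiaImage R P = {1} := by
    ext M
    constructor
    · rintro ⟨τ, hτ, rfl⟩
      rw [Set.mem_singleton_iff]
      change mat R τ = 1
      unfold mat
      rw [h τ hτ, Units.val_one]
    · intro hM
      rw [Set.mem_singleton_iff] at hM
      rw [hM]
      exact ⟨1, one_mem_inertia P, mat_one R⟩
  unfold proj
  rw [h1, Set.ncard_singleton, finsum_mem_singleton]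
  simp

end

/-- Frobenius elements exist at every maximal ideal -/
theorem exists_geomFrob {p : ℕ} (hp : p.Prime) {P : Ideal ZBar} (hP : P.IsMaximal)
    (hpP : (p : ZBar) ∈ P) : ∃ σ : GQ, IsGeomFrob p P σ := by
  obtain ⟨⟨Q, hQ, hpQ, σ, hσ⟩, -⟩ := W571.FM.main p hp
  obtain ⟨g, hg⟩ := exists_smul (K := ℚ) Q P hQ.isPrime hP.isPrime
    ((cm_eq hp hQ hpQ).trans (cm_eq hp hP hpP).symm)
  refine ⟨g * σ⁻¹ * g⁻¹, fun x => ?_⟩
  rw [hg, smul_sub, smul_pow']
  have h1 := hσ (σ⁻¹ • g⁻¹ • x)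
  rw [smul_inv_smul] at h1
  have h2 : g⁻¹ • (g * σ⁻¹ * g⁻¹) • x = σ⁻¹ • g⁻¹ • x := by
    rw [smul_smul, smul_smul]
    congr 1
    group
  rw [h2]
  exact h1

/-- at least one maximal ideal with a Frobenius element above `p` -/
theorem exists_max {p : ℕ} (hp : p.Prime) : ∃ (P : Ideal ZBar) (σ : GQ), P.IsMaximal ∧
    (p : ZBar) ∈ P ∧ IsGeomFrob p P σ := by
  obtain ⟨⟨Q, hQ, hpQ, σ, hσ⟩, -⟩ := W571.FM.main p hp
  obtain ⟨σ', h⟩ := exists_geomFrob hp hQ hpQ
  exact ⟨Q, σ', hQ, hpQ, h⟩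

/-- the local factor determines the local representation if all its parameters are different from zero -/
theorem corresponds_of_family {S : Finset ℕ} {R : GQ →* GL (Fin n) ℂ}
    (hR : IsOpen (R.ker : Set GQ)) {C : ℕ → Multiset ℂ} (hC : IsArtinFamily S R C) {p : ℕ}
    (hp : p.Prime) (hpS : p ∉ S) {f : ℂ[X]} (hf : f.Monic) (h0 : f.coeff 0 ≠ 0)
    (h : C p = f.roots) : Corresponds R p f := by
  have hn0 : (0 : ℂ) ∉ f.roots := by
    intro hmem
    apply h0
    rw [Polynomial.coeff_zero_eq_eval_zero]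
    exact Polynomial.isRoot_of_mem_roots hmem
  intro P hP hpP
  obtain ⟨σ', hσ'⟩ := exists_geomFrob hp hP hpP
  have hin : ∀ τ ∈ inertia P, R τ = 1 := by
    intro τ hτ
    refine inertia_trivial R hR (σ := σ') ?_ hτ
    have h1 := hC p hp hpS P hP hpP σ' hσ'
    rw [h] at h1
    change (0 : ℂ) ∉ (((R σ' : GL (Fin n) ℂ) : Matrix (Fin n) (Fin n) ℂ) * proj R P).charpoly.roots
    rw [← h1]
    exact hn0
  refine ⟨hin, fun σ hσ => ?_⟩
  have h1 := hC p hp hpS P hP hpP σ hσ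
  rw [h, proj_eq_one R hR hin, mul_one] at h1
  have e1 := (IsAlgClosed.splits f).eq_prod_roots_of_monic hf
  have e2 := (IsAlgClosed.splits ((R σ : GL (Fin n) ℂ) : Matrix (Fin n) (Fin n) ℂ).charpoly).eq_prod_roots_of_monic
    (Matrix.charpoly_monic _)
  rw [e1, e2, h1]

/-- conversely -/
theorem family_of_corresponds {S : Finset ℕ} {R : GQ →* GL (Fin n) ℂ}
    (hR : IsOpen (R.ker : Set GQ)) {C : ℕ → Multiset ℂ} (hC : IsArtinFamily S R C) {p : ℕ}
    (hp : p.Prime) (hpS : p ∉ S) {f : ℂ[X]} (h : Corresponds R p f) : C p = f.roots := by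
  obtain ⟨P, σ, hP, hpP, hσ⟩ := exists_max hp
  obtain ⟨h1, h2⟩ := h P hP hpP
  rw [hC p hp hpS P hP hpP σ hσ, proj_eq_one R hR h1, mul_one, h2 σ hσ]

theorem family_card {S : Finset ℕ} {R : GQ →* GL (Fin n) ℂ}
    {C : ℕ → Multiset ℂ} (hC : IsArtinFamily S R C) {p : ℕ}
    (hp : p.Prime) (hpS : p ∉ S) : (C p).card = n := by
  obtain ⟨P, σ, hP, hpP, hσ⟩ := exists_max hp
  rw [hC p hp hpS P hP hpP σ hσ, IsAlgClosed.card_roots_eq_natDegree, Matrix.charpoly_natDegree_eq_dim,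
    Fintype.card_fin]

theorem family_norm {S : Finset ℕ} {R : GQ →* GL (Fin n) ℂ} (hR : IsOpen (R.ker : Set GQ))
    {C : ℕ → Multiset ℂ} (hC : IsArtinFamily S R C) {p : ℕ}
    (hp : p.Prime) (hpS : p ∉ S) {c : ℂ} (hc : c ∈ C p) : ‖c‖ ≤ 1 ∧ ‖c⁻¹‖ ≤ 1 := by
  obtain ⟨P, σ, hP, hpP, hσ⟩ := exists_max hp
  rw [hC p hp hpS P hP hpP σ hσ] at hc
  rcases norm_root R hR hP.isPrime hp.pos hσ hc with h | h
  · rw [h]
    simp
  · rw [norm_inv, h]
    simp

end Pool.Agent.U849.TG
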