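import Pool.Agent.U175.DS.Pub

/-!
# Galois representations and sets of primes of density zero

The theorems of `Pool.Agent.U175.DS` and `Pool.Agent.R401` with an exceptional set of primes of density zero instead of
a finite one.
-/

set_option autoImplicit false
set_option maxHeartbeats 400000

namespace Pool.Agent.U849.TG

open NumberField Filter Topology Polynomial IsDedekindDomain
open Pool.Agent.W401.Cheb Pool.Agent.W569.FM Pool.Agent.R401.Dens Pool.Agent.R401.RS Pool.Agent.R401.Img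
open Pool.Agent.R401 Pool.Agent.R401.DS Pool.Agent Pool.Agent.U175.DS

/-- density zero -/
def Zd (B : Set ℕ) : Prop :=
  ∀ ε : ℝ, 0 < ε → ∀ᶠ N : ℕ in atTop, (cnt B N : ℝ) ≤ ε * Nat.primeCounting N

theorem cnt_union (B X : Set ℕ) (N : ℕ) : cnt (B ∪ X) N ≤ cnt B N + cnt X N := by
  unfold cnt
  have h9 : ∀ X : Set ℕ, Nat.card {p : ℕ // p ≤ N ∧ p.Prime ∧ p ∈ X} =
      ({p : ℕ | p ≤ N ∧ p.Prime ∧ p ∈ X} : Set ℕ).ncard := fun X => rfl
  rw [h9, h9, h9]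
  have h10 : ({p : ℕ | p ≤ N ∧ p.Prime ∧ p ∈ B ∪ X} : Set ℕ) ⊆
      {p : ℕ | p ≤ N ∧ p.Prime ∧ p ∈ B} ∪ {p : ℕ | p ≤ N ∧ p.Prime ∧ p ∈ X} := by
    rintro p ⟨h1, h2, h3 | h3⟩
    · exact Or.inl ⟨h1, h2, h3⟩
    · exact Or.inr ⟨h1, h2, h3⟩
  have hf : ∀ X : Set ℕ, ({p : ℕ | p ≤ N ∧ p.Prime ∧ p ∈ X} : Set ℕ).Finite := fun X =>
    (Set.finite_Iic N).subset fun _ h => h.1
  refine (Set.ncard_le_ncard h10 ((hf B).union (hf X))).trans ?_
  exact Set.ncard_union_le _ _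

theorem Zd.union {B X : Set ℕ} (hB : Zd B) (hX : Zd X) : Zd (B ∪ X) := by
  intro ε hε
  filter_upwards [hB (ε / 2) (half_pos hε), hX (ε / 2) (half_pos hε)] with N h1 h2
  have h3 : (cnt (B ∪ X) N : ℝ) ≤ cnt B N + cnt X N := by exact_mod_cast cnt_union B X N
  linarith

theorem Zd.of_finite {B : Set ℕ} (hB : B.Finite) : Zd B := by
  intro ε hε
  have h7 : Tendsto (fun n : ℕ => ε * (Nat.primeCounting n : ℝ)) atTop atTop :=
    (tendsto_natCast_atTop_atTop.comp Nat.tendsto_primeCounting).const_mul_atTop hε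
  filter_upwards [h7.eventually_ge_atTop (B.ncard : ℝ)] with N hN
  refine le_trans ?_ hN
  have h1 : cnt B N ≤ B.ncard := by
    unfold cnt
    have h9 : Nat.card {p : ℕ // p ≤ N ∧ p.Prime ∧ p ∈ B} =
      ({p : ℕ | p ≤ N ∧ p.Prime ∧ p ∈ B} : Set ℕ).ncard := rfl
    rw [h9]
    exact Set.ncard_le_ncard (fun p hp => hp.2.2) hB
  exact_mod_cast h1

/-- a set of density zero does not matter -/
theorem freq_union' {B : Set ℕ} (hB : Zd B) (X : Set ℕ) {ε : ℝ} (hε : 0 < ε)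
    (h : ∃ᶠ N : ℕ in atTop, (cnt X N : ℝ) ≤ ε / 2 * Nat.primeCounting N) :
    ∃ᶠ N : ℕ in atTop, (cnt (B ∪ X) N : ℝ) ≤ ε * Nat.primeCounting N := by
  refine (h.and_eventually (hB (ε / 2) (half_pos hε))).mono ?_
  rintro N ⟨h1, h2⟩
  have h3 : (cnt (B ∪ X) N : ℝ) ≤ cnt B N + cnt X N := by exact_mod_cast cnt_union B X N
  linarith

/-- every coset of an open normal subgroup contains a Frobenius element at a prime outside of a
set of density zero -/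
theorem exists_frob' (U : Subgroup (GF ℚ)) [U.Normal] (hU : IsOpen (U : Set (GF ℚ)))
    {B : Set ℕ} (hB : Zd B) (g : GF ℚ) :
    ∃ (p : ℕ) (P : Ideal (OO ℚ)) (σ : GF ℚ), p.Prime ∧ p ∉ B ∧ P.IsMaximal ∧ (p : OO ℚ) ∈ P ∧
      FrobAt p P σ ∧ g⁻¹ * σ ∈ U := by
  classical
  by_contra hcon
  push Not at hcon
  set C : Set (GF ℚ) := {σ | ∃ τ : GF ℚ, (τ * g * τ⁻¹)⁻¹ * σ ∈ U} with hCdef
  have hC : ∀ σ ∈ C, ∀ τ : GF ℚ, τ * σ * τ⁻¹ ∈ C := by
    rintro σ ⟨α, hα⟩ τ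
    refine ⟨τ * α, ?_⟩
    have h1 : (τ * α * g * (τ * α)⁻¹)⁻¹ * (τ * σ * τ⁻¹) = τ * ((α * g * α⁻¹)⁻¹ * σ) * τ⁻¹ := by
      group
    rw [h1]
    exact Subgroup.Normal.conj_mem inferInstance _ hα τ
  have hCU : ∀ σ ∈ C, ∀ u ∈ U, σ * u ∈ C := by
    rintro σ ⟨α, hα⟩ u hu
    refine ⟨α, ?_⟩
    rw [← mul_assoc]
    exact U.mul_mem hα hu
  have hX : ∀ p : ℕ, p.Prime → ∀ P : Ideal (OO ℚ), P.IsMaximal → (p : OO ℚ) ∈ P →
      ∀ g ∈ C, FrobAt p P g → p ∈ B := by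
    rintro p hp P hP hpP σ ⟨α, hα⟩ hσ
    by_contra hpB
    -- conjugate
    set P' : Ideal (OO ℚ) := P.comap (MulSemiringAction.toRingHom (GF ℚ) (OO ℚ) α) with hP'def
    have hmem : ∀ x, x ∈ P' ↔ α • x ∈ P := fun x => Iff.rfl
    have hP' : P'.IsMaximal := by
      apply Ideal.comap_isMaximal_of_surjective
      intro y
      exact ⟨α⁻¹ • y, by
        change α • α⁻¹ • y = y
        rw [smul_inv_smul]⟩
    have hpP' : (p : OO ℚ) ∈ P' := by
      rw [hmem]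
      have : α • (p : OO ℚ) = (p : OO ℚ) := map_natCast (MulSemiringAction.toRingHom (GF ℚ) (OO ℚ) α) p
      rw [this]
      exact hpP
    have hF : FrobAt p P' (α⁻¹ * σ * α) := by
      intro x
      rw [hmem, smul_sub, smul_pow', smul_smul]
      have h1 := hσ (α • x)
      rw [smul_smul] at h1
      have h2 : α * (α⁻¹ * σ * α) = σ * α := by group
      rw [h2]
      exact h1
    refine hcon p P' (α⁻¹ * σ * α) hp hpB hP' hpP' hF ?_
    have h1 : g⁻¹ * (α⁻¹ * σ * α) = α⁻¹ * ((α * g * α⁻¹)⁻¹ * σ) * α⁻¹⁻¹ := by group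
    rw [h1]
    exact Subgroup.Normal.conj_mem inferInstance _ hα α⁻¹
  have hfin : Finite (GF ℚ ⧸ U) := Subgroup.quotient_finite_of_isOpen U hU
  have h6 : (0 : ℝ) < Nat.card (GF ℚ ⧸ U) := by exact_mod_cast Nat.card_pos
  set ε : ℝ := 1 / (2 * Nat.card (GF ℚ ⧸ U)) with hε
  have hε0 : 0 < ε := by positivity
  have hle := card_le U hU C hC hCU B hX ε (hB ε hε0)
  have h5 : 0 < ((QuotientGroup.mk : GF ℚ → GF ℚ ⧸ U) '' C).ncard := by
    rw [Set.ncard_pos (Set.toFinite _)]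
    refine ⟨_, g, ⟨1, ?_⟩, rfl⟩
    have : (1 * g * 1⁻¹)⁻¹ * g = 1 := by group
    rw [this]
    exact U.one_mem
  have h9 : ε * Nat.card (GF ℚ ⧸ U) = 1 / 2 := by
    rw [hε]
    field_simp
  rw [h9] at hle
  have h10 : (1 : ℝ) ≤ (((QuotientGroup.mk : GF ℚ → GF ℚ ⧸ U) '' C).ncard : ℝ) := by
    exact_mod_cast h5
  linarith

/-- finite image from one prime -/
theorem one_prime' {K : Type} [Field K] [NumberField K] {n : ℕ} (hn : 0 < n) {B : Set ℕ}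
    (hB : Zd B) (f : ℕ → (𝓞 K)[X]) {C : ℝ}
    (hRS : ∃ᶠ x : ℕ in atTop, ∀ σ : K →+* ℂ,
      ∑ᶠ p ∈ primesUpTo B x, ‖σ ((f p).coeff (n - 1))‖ ^ 2 ≤ C * Nat.primeCounting x)
    {k : Type*} [Field k] [TopologicalSpace k] [IsTopologicalRing k] [T2Space k] [CharZero k]
    (φ : 𝓞 K →+* k) (ρ : GF ℚ →* GL (Fin n) k) (hρ : Continuous ρ) (hss : SS ρ) {ℓ : ℕ}
    (hatt : ∀ p, p.Prime → p ∉ B → p ≠ ℓ → Att ρ p ((f p).map φ)) :
    IsOpen (ρ.ker : Set (GF ℚ)) := by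
  set ε : ℝ := 1 / (2 * ((n : ℝ) ^ 2 + 1)) with hε
  have hε0 : 0 < ε := by positivity
  have hε1 : (n : ℝ) ^ 2 * ε < 1 / 2 := by
    rw [hε, mul_one_div, div_lt_div_iff₀ (by positivity) (by norm_num)]
    linarith
  obtain ⟨Y, hY, hYcnt⟩ := exists_finite B (fun p => (f p).coeff (n - 1)) hRS (half_pos hε0)
  refine open_ker ρ hρ hss (Y := (fun y => -φ y) '' Y) (hY.image _)
    ((B ∪ {ℓ}) ∪ {p | p ∉ B ∧ (f p).coeff (n - 1) ∉ Y}) (by
    intro p hp hpX P hP hpP g hg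
    simp only [Set.mem_union, not_or, Set.mem_singleton_iff, Set.mem_ofPred_eq, not_and,
      not_not] at hpX
    obtain ⟨⟨hpB, hpℓ⟩, hpY⟩ := hpX
    refine ⟨_, hpY hpB, ?_⟩
    have h2 := (hatt p hp hpB hpℓ).frob P hP.isPrime hpP g hg
    have : Nonempty (Fin n) := ⟨⟨0, hn⟩⟩
    rw [Matrix.trace_eq_neg_charpoly_coeff, h2, coeff_map, Fintype.card_fin]) hε0.le
    (hε1.trans (by norm_num))
    (freq_union' (hB.union (Zd.of_finite (Set.finite_singleton _))) _ hε0 hYcnt)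

/-- **Deligne–Serre in any dimension**: representations in infinitely many characteristics whose images
have bounded orders -/
theorem glue' {K : Type} [Field K] [NumberField K] {n : ℕ} {B : Set ℕ} (hB : Zd B)
    (f : ℕ → (𝓞 K)[X]) {A : ℕ}
    (hmod : ∀ N : ℕ, ∃ ℓ, N < ℓ ∧ ℓ.Prime ∧ ∃ (k : Type) (_ : Field k) (_ : CharP k ℓ)
      (φ : 𝓞 K →+* k) (ρ : GF ℚ →* GL (Fin n) k), IsOpen (ρ.ker : Set (GF ℚ)) ∧
        Nat.card (GF ℚ ⧸ ρ.ker) ≤ A ∧
        ∀ p, p.Prime → p ∉ B → p ≠ ℓ → Att ρ p ((f p).map φ)) :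
    ∃ (L : Type) (_ : Field L) (_ : Algebra K L), FiniteDimensional K L ∧
      ∃ R : GF ℚ →* GL (Fin n) L, IsOpen (R.ker : Set (GF ℚ)) ∧
        ∀ p, p.Prime → p ∉ B → Att R p ((f p).map ((algebraMap K L).comp (algebraMap (𝓞 K) K))) := by
  classical
  -- the data
  choose ℓ hℓN hℓp k ik ic φ ρ hρ hcard hatt using hmod
  -- Frobenius elements
  have hFr : ∀ p : ℕ, p.Prime → ∃ (P : Ideal (OO ℚ)) (σ : GF ℚ), P.IsMaximal ∧ (p : OO ℚ) ∈ P ∧
      FrobAt p P σ := by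
    intro p hp
    obtain ⟨⟨P, h1, h2, σ, h3⟩, -⟩ := W571.FM.main p hp
    exact ⟨P, σ, h1, h2, h3⟩
  have hcardN : ∀ N, n < ℓ N → Nat.card (GF ℚ ⧸ (ρ N).ker) ≤ A := fun N _ => hcard N
  -- finitely many polynomials
  set S : Set (𝓞 K)[X] := {q | ∃ p, p.Prime ∧ p ∉ B ∧ f p = q} with hSdef
  have hSfin : S.Finite := by
    by_contra hinf
    obtain ⟨s, hsS, hs⟩ := (show S.Infinite from hinf).exists_subset_card_eq (A + 1)
    obtain ⟨M, hM⟩ := injOn_of_finite (s.finite_toSet)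
    choose! pr hpr hprB hfpr using (fun q (hq : q ∈ s) => (hsS hq : ∃ p, p.Prime ∧ p ∉ B ∧ f p = q))
    set M' : ℕ := s.sup pr with hM'
    set N : ℕ := max M (max M' n) with hN
    have h1 : M < ℓ N := (le_max_left _ _).trans_lt (hℓN N)
    have h2 : M' < ℓ N := ((le_max_left _ _).trans (le_max_right _ _)).trans_lt (hℓN N)
    have h3 : n < ℓ N := ((le_max_right _ _).trans (le_max_right _ _)).trans_lt (hℓN N)
    choose! P σ hP hpP hσ using hFr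
    have : Finite (GF ℚ ⧸ (ρ N).ker) := Subgroup.quotient_finite_of_isOpen _ (hρ N)
    have h4 : Nat.card s ≤ Nat.card (GF ℚ ⧸ (ρ N).ker) := by
      refine Nat.card_le_card_of_injective
        (fun q : s => (((σ (pr q))⁻¹ : GF ℚ) : GF ℚ ⧸ (ρ N).ker)) ?_
      intro q q' hqq
      have h5 : ∀ q : s, (mt (ρ N) (σ (pr q))⁻¹).charpoly = (q : (𝓞 K)[X]).map (φ N) := by
        intro q
        have h6 : pr q < ℓ N := (Finset.le_sup (f := pr) q.2).trans_lt h2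
        have h7 := ((hatt N) (pr q) (hpr q q.2) (hprB q q.2) h6.ne).frob (P (pr q))
          (hP _ (hpr q q.2)).isPrime (hpP _ (hpr q q.2)) _ (hσ _ (hpr q q.2))
        rw [hfpr q q.2] at h7
        exact h7
      have h6 : mt (ρ N) (σ (pr q))⁻¹ = mt (ρ N) (σ (pr q'))⁻¹ := by
        have h7 := QuotientGroup.eq.1 hqq
        rw [MonoidHom.mem_ker, map_mul, map_inv, inv_mul_eq_one] at h7
        exact congrArg Units.val h7
      have h7 : (q : (𝓞 K)[X]).map (φ N) = (q' : (𝓞 K)[X]).map (φ N) := by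
        rw [← h5 q, ← h5 q', h6]
      exact Subtype.ext (@hM (ℓ N) (k N) (ik N) (ic N) (φ N) h1 _ q.2 _ q'.2 h7)
    have h5 := h4.trans (hcardN N h3)
    rw [Nat.card_eq_fintype_card, Fintype.card_coe, hs] at h5
    omega
  -- reduction is injective
  obtain ⟨M, hM⟩ := injOn_of_finite (hSfin.insert ((X - 1) ^ n : (𝓞 K)[X]))
  set N₀ : ℕ := max M (max n A) with hN₀
  have hlarge : ∀ N, N₀ ≤ N → M < ℓ N ∧ n < ℓ N ∧ A < ℓ N := by
    intro N hN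
    have h1 := hℓN N
    have h2 : M ≤ N₀ := le_max_left _ _
    have h3 : n ≤ N₀ := (le_max_left _ _).trans (le_max_right _ _)
    have h4 : A ≤ N₀ := (le_max_right _ _).trans (le_max_right _ _)
    omega
  have hker : ∀ N N', N₀ ≤ N → N₀ ≤ N' → (ρ N).ker ≤ (ρ N').ker := by
    intro N N' hN hN' g hg
    have hopen : IsOpen (((ρ N).ker ⊓ (ρ N').ker : Subgroup (GF ℚ)) : Set (GF ℚ)) :=
      (hρ N).inter (hρ N')
    obtain ⟨p, P, σ, hp, hpB, hP, hpP, hσ, hgσ⟩ := exists_frob' ((ρ N).ker ⊓ (ρ N').ker) hopen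
      (B := B ∪ {ℓ N, ℓ N'}) (hB.union (Zd.of_finite (Set.toFinite _))) g
    simp only [Set.mem_union, Set.mem_insert_iff, Set.mem_singleton_iff, not_or] at hpB
    obtain ⟨hpB, hpN, hpN'⟩ := hpB
    obtain ⟨h1, h2⟩ := Subgroup.mem_inf.1 hgσ
    rw [MonoidHom.mem_ker, map_mul, map_inv, inv_mul_eq_one] at h1 h2
    rw [MonoidHom.mem_ker] at hg ⊢
    rw [hg] at h1
    rw [h2]
    have h3 := (hatt N p hp hpB hpN).frob P hP.isPrime hpP σ hσ
    have h4 := (hatt N' p hp hpB hpN').frob P hP.isPrime hpP σ hσ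
    have h5 : mt (ρ N) σ⁻¹ = 1 := by
      unfold Img.mt
      rw [map_inv, ← h1, inv_one, Units.val_one]
    rw [h5, Matrix.charpoly_one, Fintype.card_fin] at h3
    have h6 : ((X - 1) ^ n : (𝓞 K)[X]).map (φ N) = (f p).map (φ N) := by
      rw [← h3, Polynomial.map_pow, Polynomial.map_sub, map_X, Polynomial.map_one]
    have h7 := @hM (ℓ N) (k N) (ik N) (ic N) (φ N) (hlarge N hN).1 _ (Set.mem_insert _ _) _
      (Set.mem_insert_of_mem _ ⟨p, hp, hpB, rfl⟩) h6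
    rw [← h7, Polynomial.map_pow, Polynomial.map_sub, map_X, Polynomial.map_one] at h4
    have : Finite (GF ℚ ⧸ (ρ N').ker) := Subgroup.quotient_finite_of_isOpen _ (hρ N')
    have h8 : ((ρ N') σ⁻¹) ^ Nat.card (GF ℚ ⧸ (ρ N').ker) = 1 := by
      rw [← map_pow, ← MonoidHom.mem_ker, ← QuotientGroup.eq_one_iff, QuotientGroup.mk_pow]
      exact pow_card_eq_one'
    have h9 : mt (ρ N') σ⁻¹ = 1 := by
      refine eq_one_of_charpoly h4 (e := Nat.card (GF ℚ ⧸ (ρ N').ker)) ?_ ?_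
      · intro h
        have h10 := (@CharP.cast_eq_zero_iff (k N') _ (ℓ N') (ic N') _).1 h
        have h11 := Nat.le_of_dvd Nat.card_pos h10
        have h12 := hcardN N' (hlarge N' hN').2.1
        have h13 := (hlarge N' hN').2.2
        omega
      · have h10 := congrArg Units.val h8
        rw [Units.val_pow_eq_pow_val, Units.val_one] at h10
        exact h10
    have h10 : (ρ N') σ⁻¹ = 1 := Units.ext h9
    rw [map_inv, inv_eq_one] at h10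
    exact h10
  -- the finite quotient
  have hkerN₀ : ∀ N, N₀ ≤ N → (ρ N₀).ker ≤ (ρ N).ker := fun N hN => hker N₀ N le_rfl hN
  have hfin : Finite (GF ℚ ⧸ (ρ N₀).ker) := Subgroup.quotient_finite_of_isOpen _ (hρ N₀)
  have hfrob : ∀ γ : GF ℚ ⧸ (ρ N₀).ker, ∃ (p : ℕ) (P : Ideal (OO ℚ)) (σ : GF ℚ), p.Prime ∧ p ∉ B ∧
      P.IsMaximal ∧ (p : OO ℚ) ∈ P ∧ FrobAt p P σ ∧ ((σ⁻¹ : GF ℚ) : GF ℚ ⧸ (ρ N₀).ker) = γ := by
    intro γ
    induction γ using QuotientGroup.induction_on with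
    | H g =>
    obtain ⟨p, P, σ, hp, hpB, hP, hpP, hσ, hgσ⟩ := exists_frob' (ρ N₀).ker (hρ N₀) hB g⁻¹
    refine ⟨p, P, σ, hp, hpB, hP, hpP, hσ, ?_⟩
    rw [inv_inv, MonoidHom.mem_ker, map_mul] at hgσ
    rw [QuotientGroup.eq, inv_inv, MonoidHom.mem_ker, map_mul]
    rw [mul_eq_one_iff_eq_inv] at hgσ ⊢
    rw [hgσ, inv_inv]
  choose pr P σ hpr hprB hP hpP hσ hσγ using hfrob
  let ρ' : ∀ j : ℕ, (GF ℚ ⧸ (ρ N₀).ker) →* GL (Fin n) (k (N₀ + j)) := fun j =>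
    QuotientGroup.lift (ρ N₀).ker (ρ (N₀ + j)) (hkerN₀ _ (Nat.le_add_right _ _))
  have hρ' : ∀ j (g : GF ℚ), ρ' j (g : GF ℚ ⧸ (ρ N₀).ker) = ρ (N₀ + j) g := fun j g => rfl
  obtain ⟨L, iL, iA, hfd, R, hR⟩ := Glue.exists_rep (K := K) (O := 𝓞 K) (J := ℕ)
    (fun j => k (N₀ + j)) (fun j => φ (N₀ + j)) (by
      intro x hx
      obtain ⟨M₁, hM₁⟩ := lt_of_map_eq_zero hx
      refine (Set.finite_Iic M₁).subset fun j hj => ?_
      rw [Set.mem_Iic]
      by_contra hcon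
      refine @hM₁ (ℓ (N₀ + j)) (k (N₀ + j)) (ik _) (ic _) (φ (N₀ + j)) hj ?_
      have := hℓN (N₀ + j)
      omega) ρ' (fun γ => f (pr γ)) (by
      intro γ
      refine (Set.finite_Iic (pr γ)).subset fun j hj => ?_
      rw [Set.mem_Iic]
      by_contra hcon
      apply hj
      have h1 : pr γ ≠ ℓ (N₀ + j) := by
        have := hℓN (N₀ + j)
        omega
      have h2 := (hatt (N₀ + j) (pr γ) (hpr γ) (hprB γ) h1).frob (P γ) (hP γ).isPrime (hpP γ) (σ γ)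
        (hσ γ)
      rw [← h2]
      have h3 := hρ' j (σ γ)⁻¹
      rw [hσγ γ] at h3
      rw [h3]
      rfl)
  refine ⟨L, iL, iA, hfd, R.comp (QuotientGroup.mk' (ρ N₀).ker), ?_, ?_⟩
  · refine Subgroup.isOpen_mono (H₁ := (ρ N₀).ker) ?_ (hρ N₀)
    intro g hg
    rw [MonoidHom.mem_ker, MonoidHom.comp_apply, QuotientGroup.mk'_apply,
      (QuotientGroup.eq_one_iff g).2 hg, map_one]
  · intro p hp hpB
    constructor
    · intro Q hQ hpQ g hg
      have h1 := (hatt (N₀ + p) p hp hpB (by have := hℓN (N₀ + p); omega)).unr Q hQ hpQ g hg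
      have h2 : g ∈ (ρ N₀).ker := hker (N₀ + p) N₀ (Nat.le_add_right _ _) le_rfl h1
      rw [MonoidHom.comp_apply, QuotientGroup.mk'_apply, (QuotientGroup.eq_one_iff g).2 h2, map_one]
    · intro Q hQ hpQ g hg
      set γ : GF ℚ ⧸ (ρ N₀).ker := ((g⁻¹ : GF ℚ) : GF ℚ ⧸ (ρ N₀).ker) with hγ
      have h1 := hR γ
      change ((R γ : GL (Fin n) L) : Matrix (Fin n) (Fin n) L).charpoly = _
      rw [h1]
      congr 1
      set N : ℕ := N₀ + p + pr γ with hN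
      have hN₀N : N₀ ≤ N := by omega
      have hlN := hℓN N
      refine @hM (ℓ N) (k N) (ik N) (ic N) (φ N) (hlarge N hN₀N).1 _
        (Set.mem_insert_of_mem _ ⟨pr γ, hpr γ, hprB γ, rfl⟩) _
        (Set.mem_insert_of_mem _ ⟨p, hp, hpB, rfl⟩) ?_
      rw [← (hatt N (pr γ) (hpr γ) (hprB γ) (by omega)).frob (P γ) (hP γ).isPrime (hpP γ) (σ γ)
        (hσ γ), ← (hatt N p hp hpB (by omega)).frob Q hQ hpQ g hg]
      congr 1
      have h2 : (σ γ)⁻¹⁻¹ * g⁻¹ ∈ (ρ N₀).ker := QuotientGroup.eq.1 (hσγ γ)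
      have h3 := hkerN₀ N hN₀N h2
      rw [MonoidHom.mem_ker, map_mul, map_inv, inv_mul_eq_one] at h3
      exact congrArg Units.val h3

/-- **Deligne–Serre in any dimension.** Mean squares bounded for arbitrarily large `x`. -/
theorem main' {K : Type} [Field K] [NumberField K] {n : ℕ} (hn : 0 < n) {B : Set ℕ} (hB : Zd B)
    (f : ℕ → (𝓞 K)[X]) {C : ℝ}
    (hRS : ∃ᶠ x : ℕ in atTop, ∀ σ : K →+* ℂ,
      ∑ᶠ p ∈ primesUpTo B x, ‖σ ((f p).coeff (n - 1))‖ ^ 2 ≤ C * Nat.primeCounting x)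
    (hmod : ∀ N : ℕ, ∃ ℓ, N < ℓ ∧ ℓ.Prime ∧ ∃ (k : Type) (_ : Field k) (_ : CharP k ℓ)
      (φ : 𝓞 K →+* k) (ρ : GF ℚ →* GL (Fin n) k), IsOpen (ρ.ker : Set (GF ℚ)) ∧ SS ρ ∧
        ∀ p, p.Prime → p ∉ B → p ≠ ℓ → Att ρ p ((f p).map φ)) :
    ∃ (L : Type) (_ : Field L) (_ : Algebra K L), FiniteDimensional K L ∧
      ∃ R : GF ℚ →* GL (Fin n) L, IsOpen (R.ker : Set (GF ℚ)) ∧
        ∀ p, p.Prime → p ∉ B → Att R p ((f p).map ((algebraMap K L).comp (algebraMap (𝓞 K) K))) := by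
  classical
  -- finitely many traces
  set ε : ℝ := 1 / (2 * ((n : ℝ) ^ 2 + 1)) with hε
  have hε0 : 0 < ε := by positivity
  have hε1 : (n : ℝ) ^ 2 * ε < 1 / 2 := by
    rw [hε, mul_one_div, div_lt_div_iff₀ (by positivity) (by norm_num)]
    linarith
  obtain ⟨Y, hY, hYcnt⟩ := exists_finite B (fun p => (f p).coeff (n - 1)) hRS (half_pos hε0)
  set A : ℕ := 2 * (Y.ncard + 1) ^ (n ^ 2) with hA
  refine glue' hB f (A := A) fun N => ?_
  obtain ⟨ℓ, hℓN, hℓ, k, ik, ic, φ, ρ, hker, hss, hatt⟩ := hmod (max N n)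
  have hnℓ : n < ℓ := (le_max_right _ _).trans_lt hℓN
  refine ⟨ℓ, (le_max_left _ _).trans_lt hℓN, hℓ, k, ik, ic, φ, ρ, hker, ?_, hatt⟩
  have hk : ∀ m : ℕ, 0 < m → m ≤ n → (m : k) ≠ 0 := by
    intro m hm hmn h
    rw [CharP.cast_eq_zero_iff k ℓ] at h
    exact absurd (Nat.le_of_dvd hm h) (by omega)
  have h1 := bound hk ρ hker hss (Y := (fun y => -φ y) '' Y) (hY.image _)
    ((B ∪ {ℓ}) ∪ {p | p ∉ B ∧ (f p).coeff (n - 1) ∉ Y}) (by
    intro p hp hpX P hP hpP g hg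
    simp only [Set.mem_union, not_or, Set.mem_singleton_iff, Set.mem_ofPred_eq, not_and,
      not_not] at hpX
    obtain ⟨⟨hpB, hpℓ⟩, hpY⟩ := hpX
    refine ⟨_, hpY hpB, ?_⟩
    have h2 := (hatt p hp hpB hpℓ).frob P hP.isPrime hpP g hg
    have : Nonempty (Fin n) := ⟨⟨0, hn⟩⟩
    rw [Matrix.trace_eq_neg_charpoly_coeff, h2, coeff_map, Fintype.card_fin]) hε0.le
    (hε1.trans (by norm_num))
    (freq_union' (hB.union (Zd.of_finite (Set.finite_singleton _))) _ hε0 hYcnt)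
  have h2 : ((fun y => -φ y) '' Y).ncard ≤ Y.ncard := Set.ncard_image_le hY
  have h3 : (1 / 2 : ℝ) * Nat.card (GF ℚ ⧸ ρ.ker) ≤ (Y.ncard + 1) ^ (n ^ 2) := by
    refine le_trans ?_ (h1.trans ?_)
    · apply mul_le_mul_of_nonneg_right _ (Nat.cast_nonneg _)
      linarith
    · have h4 : ((((fun y => -φ y) '' Y).ncard : ℕ) : ℝ) ≤ Y.ncard := by exact_mod_cast h2
      exact pow_le_pow_left₀ (by positivity) (by linarith) _
  have h4 : (Nat.card (GF ℚ ⧸ ρ.ker) : ℝ) ≤ A := by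
    rw [hA]
    push_cast
    linarith
  exact_mod_cast h4

end Pool.Agent.U849.TG
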