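import Pool.Agent.U849.TG.Zero
import Pool.Agent.U849.TG.Art
import Pool.Agent.U849.TE.Eq

/-!
# Artin representations from representations corresponding outside a set of density zero, and thin sets
-/

set_option autoImplicit false
set_option maxHeartbeats 400000

namespace Pool.Agent.U849.TG

open NumberField Filter Topology Polynomial
open Pool.Agent.W569.FM Pool.Agent.R401.Dens Pool.Agent.R401.RS Pool.Agent.R401.Img
open Pool.Agent.R401 Pool.Agent.R401.DS Pool.Agent Pool.Agent.U175.DS Pool.Agent.U849.TE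

attribute [local instance 10] DivisionRing.toRatAlgebra

variable {K : Type} [Field K] [NumberField K] {n : ℕ} {S : Finset ℕ} {E : Set ℕ} {f : ℕ → (𝓞 K)[X]}
  {σ₀ : K →+* ℂ}

theorem meanSquare_mono {B B' : Set ℕ} (hBB : B ⊆ B') {t : ℕ → 𝓞 K} {C : ℝ}
    (h : ∃ᶠ x : ℕ in atTop, ∀ σ : K →+* ℂ,
      ∑ᶠ p ∈ primesUpTo B x, ‖σ (t p)‖ ^ 2 ≤ C * Nat.primeCounting x) :
    ∃ᶠ x : ℕ in atTop, ∀ σ : K →+* ℂ,
      ∑ᶠ p ∈ primesUpTo B' x, ‖σ (t p)‖ ^ 2 ≤ C * Nat.primeCounting x := by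
  refine h.mono fun x hx σ => le_trans ?_ (hx σ)
  rw [finsum_mem_eq_finite_toFinset_sum _ (finite_primesUpTo B x),
    finsum_mem_eq_finite_toFinset_sum _ (finite_primesUpTo B' x)]
  refine Finset.sum_le_sum_of_subset_of_nonneg ?_ fun _ _ _ => by positivity
  intro p hp
  rw [Set.Finite.mem_toFinset] at hp ⊢
  exact ⟨hp.1, hp.2.1, fun hb => hp.2.2 (hBB hb)⟩

theorem zd_union (hE : Zd E) : Zd ((S : Set ℕ) ∪ E) := (Zd.of_finite S.finite_toSet).union hE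

/-- one `ℓ`-adic representation -/
theorem artin_of_ladic (h : IntegralSystem K n S f) (hE : Zd E) {ℓ : ℕ} [Fact ℓ.Prime]
    (hℓ : ℓ ∈ E) {ι : PadicAlgCl ℓ ≃+* ℂ} (hl : HasLadic n (S ∪ E) f σ₀ ℓ ι) :
    HasArtin n (S ∪ E) f σ₀ := by
  obtain ⟨C, hC⟩ := h.meanSquare
  obtain ⟨ρ, hρ, hss, hc⟩ := hl
  have hne : ∀ p, p ∉ (S : Set ℕ) ∪ E → p ≠ ℓ := by
    rintro p hp rfl
    exact hp (Or.inr hℓ)
  have hatt : ∀ p, p.Prime → p ∉ (S : Set ℕ) ∪ E → p ≠ ℓ →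
      Att ρ p ((toC σ₀ (f p)).map (ι.symm : ℂ →+* PadicAlgCl ℓ)) :=
    fun p hp hpB hpℓ => (att_iff hp).1 (hc p hp hpB hpℓ)
  have hopen := one_prime' h.pos (zd_union hE) f
    (meanSquare_mono (t := fun p => (f p).coeff (n - 1)) Set.subset_union_left hC)
    ((ι.symm : ℂ →+* PadicAlgCl ℓ).comp (σ₀.comp (algebraMap (𝓞 K) K))) ρ hρ hss (ℓ := ℓ)
    (fun p hp hpB hpℓ => by
      have h1 := hatt p hp hpB hpℓ
      rwa [toC, Polynomial.map_map] at h1)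
  refine ⟨bc (ι : PadicAlgCl ℓ →+* ℂ) ρ, ?_, fun p hp hpB => (att_iff hp).2 ?_⟩
  · rw [ker_bc]
    exact hopen
  · have h1 := att_bc (ι : PadicAlgCl ℓ →+* ℂ) (hatt p hp hpB (hne p hpB))
    have h2 : ((ι : PadicAlgCl ℓ →+* ℂ)).comp (ι.symm : ℂ →+* PadicAlgCl ℓ) = RingHom.id ℂ := by
      ext x
      simp
    rwa [Polynomial.map_map, h2, Polynomial.map_id] at h1

/-- representations modulo infinitely many primes -/
theorem artin_of_modular (h : IntegralSystem K n S f) (hE : Zd E) (σ₀ : K →+* ℂ)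
    (hmod : {ℓ : ℕ | ℓ.Prime ∧ HasModular n (S ∪ E) f ℓ}.Infinite) : HasArtin n (S ∪ E) f σ₀ := by
  obtain ⟨C, hC⟩ := h.meanSquare
  obtain ⟨L, iL, iA, hfd, R, hR, hatt⟩ := main' h.pos (zd_union hE) f (C := C)
    (meanSquare_mono (t := fun p => (f p).coeff (n - 1)) Set.subset_union_left hC) (fun N => by
    obtain ⟨ℓ, ⟨hℓ, k, ik, ic, φ, ρ, hker, hss, hc⟩, hN⟩ := hmod.exists_gt N
    exact ⟨ℓ, hN, hℓ, k, ik, ic, φ, ρ, hker, hss, fun p hp hpB hpℓ =>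
      (att_iff hp).1 (hc p hp hpB hpℓ)⟩)
  let _ : Algebra K ℂ := σ₀.toAlgebra
  let j : L →ₐ[K] ℂ := IsAlgClosed.lift
  have hj : (j : L →+* ℂ).comp (algebraMap K L) = σ₀ := by
    ext x
    exact j.commutes x
  refine ⟨bc (j : L →+* ℂ) R, ?_, fun p hp hpB => (att_iff hp).2 ?_⟩
  · rw [ker_bc]
    exact hR
  · have h1 := att_bc (j : L →+* ℂ) (hatt p hp hpB)
    rw [Polynomial.map_map, ← RingHom.comp_assoc, hj] at h1
    exact h1

/-- **from outside a thin set to all unramified primes** -/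
theorem artin_extend {w : ℕ → ℝ} (hE : ThinSet S E w)
    (h1 : ∀ p : ℕ, p.Prime → p ∉ S → p ∈ E → 1 ≤ w p)
    (hf : ∀ p : ℕ, p.Prime → p ∉ S → (f p).Monic ∧ (f p).natDegree = n ∧ (f p).coeff 0 ≠ 0)
    (hs : SmallAt S E w fun p => (toC σ₀ (f p)).roots) (hN : NiceL S fun p => (toC σ₀ (f p)).roots)
    (hA : ∀ R : GQ →* GL (Fin n) ℂ, IsOpen (R.ker : Set GQ) →
      ∃ C : ℕ → Multiset ℂ, IsArtinFamily S R C ∧ NiceL S C)
    (h : HasArtin n (S ∪ E) f σ₀) : HasArtin n S f σ₀ := by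
  obtain ⟨R, hR, hatt⟩ := h
  obtain ⟨C, hC, hCN⟩ := hA R hR
  have hinj : Function.Injective (σ₀.comp (algebraMap (𝓞 K) K)) :=
    σ₀.injective.comp (FaithfulSMul.algebraMap_injective (𝓞 K) K)
  have key := eq_of_thin (n := n) hCN hN (fun p hp hpS => family_card hC hp hpS)
    (fun p hp hpS => by
      rw [IsAlgClosed.card_roots_eq_natDegree]
      unfold toC
      rw [(hf p hp hpS).1.natDegree_map, (hf p hp hpS).2.1]) hE
    (fun p hp hpS hpE c hc => by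
      obtain ⟨h2, h3⟩ := family_norm hR hC hp hpS hc
      exact ⟨h2.trans (h1 p hp hpS hpE), h3.trans (h1 p hp hpS hpE)⟩) hs
    (fun p hp hpS hpE => family_of_corresponds hR hC hp hpS (hatt p hp (by
      rintro (h2 | h2)
      · exact hpS h2
      · exact hpE h2)))
  refine ⟨R, hR, fun p hp hpS => ?_⟩
  have hpS' : p ∉ S := hpS
  refine corresponds_of_family hR hC hp hpS' ?_ ?_ (key p hp hpS')
  · exact (hf p hp hpS').1.map _
  · unfold toC
    rw [coeff_map]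
    exact (map_ne_zero_iff _ hinj).2 (hf p hp hpS').2.2

end Pool.Agent.U849.TG
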