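import Pool.Agent.U849.TG.Dens
import Pool.Agent.U849.TE.Def

/-!
# Thin sets have density zero
-/

set_option autoImplicit false
set_option maxHeartbeats 400000

namespace Pool.Agent.U849.TG

open Filter Topology Asymptotics Pool.Agent.R401.Dens Pool.Agent.U849.TE

/-- the square root is small compared with the number of primes -/
theorem sqrt_small (K : ℝ) {ε : ℝ} (hε : 0 < ε) :
    ∀ᶠ N : ℕ in atTop, K * (1 + √(N : ℝ)) ≤ ε * Nat.primeCounting N := by
  have hl : (fun x : ℝ => Real.log x) =o[atTop] fun x : ℝ => x := Real.isLittleO_log_id_atTop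
  have h1 : (fun x : ℝ => √x * Real.log x) =o[atTop] fun x : ℝ => x := by
    have h2 : (fun x : ℝ => √x * Real.log x) =o[atTop] fun x : ℝ => √x * x ^ (1 / 2 : ℝ) :=
      (isBigO_refl _ _).mul_isLittleO (isLittleO_log_rpow_atTop (by norm_num))
    refine h2.congr' EventuallyEq.rfl ?_
    filter_upwards [eventually_ge_atTop (0 : ℝ)] with x hx
    rw [← Real.sqrt_eq_rpow, Real.mul_self_sqrt hx]
  have h3 : (fun _ : ℝ => ε * 1) =o[atTop] fun x : ℝ => x := isLittleO_const_id_atTop _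
  have hF : (fun x : ℝ => |K| * Real.log x + |K| * (√x * Real.log x) + (ε * 1 + ε * Real.log x))
      =o[atTop] fun x : ℝ => x :=
    ((hl.const_mul_left _).add (h1.const_mul_left _)).add (h3.add (hl.const_mul_left _))
  have h4 := hF.bound (c := ε * Real.log 2) (by positivity)
  have h5 := tendsto_natCast_atTop_atTop.eventually h4
  filter_upwards [h5, eventually_ge_atTop 3] with N hN hN3
  have hN3' : (3 : ℝ) ≤ N := by exact_mod_cast hN3
  have hlog : 0 < Real.log N := Real.log_pos (by linarith)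
  have hN0 : (0 : ℝ) < N := by linarith
  rw [Real.norm_of_nonneg (by positivity), Real.norm_of_nonneg hN0.le] at hN
  have h6 := (Chebyshev.psi_ge N).trans (Chebyshev.psi_le_primeCounting_mul_log N)
  have h7 : Real.log (N + 1) ≤ 1 + Real.log N := by
    have h8 : Real.log ((N : ℝ) + 1) ≤ Real.log (2 * N) := Real.log_le_log (by linarith) (by linarith)
    rw [Real.log_mul (by norm_num) hN0.ne'] at h8
    have := Real.log_two_lt_d9
    linarith
  have h9 : K * (1 + √(N : ℝ)) ≤ |K| * (1 + √(N : ℝ)) := by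
    gcongr
    exact le_abs_self K
  refine h9.trans ?_
  refine le_of_mul_le_mul_right ?_ hlog
  nlinarith

/-- a thin set has density zero -/
theorem Zd.of_thin {S : Finset ℕ} {E : Set ℕ} {w : ℕ → ℝ} (hE : ThinSet S E w)
    (h1 : ∀ p : ℕ, p.Prime → p ∉ S → p ∈ E → 1 ≤ w p) : Zd E := by
  classical
  have hsum : Summable fun p : {p : ℕ // (p.Prime ∧ p ∉ S) ∧ p ∈ E} => (√((p : ℕ) : ℝ))⁻¹ := by
    refine Summable.of_nonneg_of_le (fun p => by positivity) (fun p => ?_)
      (hE.2.mul_left (Real.log 2)⁻¹)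
    obtain ⟨h2, h3⟩ := hE.1 p p.2.1.1 p.2.1.2 p.2.2
    have h4 := h1 p p.2.1.1 p.2.1.2 p.2.2
    have hp2 : (2 : ℝ) ≤ (p : ℕ) := by exact_mod_cast p.2.1.1.two_le
    have h5 : Real.log 2 ≤ Real.log (p : ℕ) := Real.log_le_log (by norm_num) hp2
    have hl2 : 0 < Real.log 2 := Real.log_pos (by norm_num)
    have h6 : 0 < √((p : ℕ) : ℝ) - w p := by linarith
    have h7 : 0 < √((p : ℕ) : ℝ) := by linarith
    have h8 : (√((p : ℕ) : ℝ))⁻¹ ≤ w p / (√((p : ℕ) : ℝ) - w p) := by
      rw [inv_eq_one_div, div_le_div_iff₀ h7 h6]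
      nlinarith
    rw [inv_mul_eq_div, le_div_iff₀ hl2]
    calc (√((p : ℕ) : ℝ))⁻¹ * Real.log 2 ≤ w p / (√((p : ℕ) : ℝ) - w p) * Real.log (p : ℕ) := by
          gcongr
      _ = _ := by ring
  set T : ℝ := ∑' p : {p : ℕ // (p.Prime ∧ p ∉ S) ∧ p ∈ E}, (√((p : ℕ) : ℝ))⁻¹ with hT
  have hT0 : 0 ≤ T := tsum_nonneg fun p => by positivity
  intro ε hε
  filter_upwards [sqrt_small (S.card + T) hε] with N hN
  refine le_trans ?_ hN
  -- the finite set of the primes of `E` outside `S`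
  set F : Finset ℕ := (Finset.range (N + 1)).filter fun p => (p.Prime ∧ p ∉ S) ∧ p ∈ E with hF
  have h2 : cnt E N ≤ S.card + F.card := by
    unfold cnt
    have h9 : Nat.card {p : ℕ // p ≤ N ∧ p.Prime ∧ p ∈ E} =
      ({p : ℕ | p ≤ N ∧ p.Prime ∧ p ∈ E} : Set ℕ).ncard := rfl
    rw [h9]
    have h10 : ({p : ℕ | p ≤ N ∧ p.Prime ∧ p ∈ E} : Set ℕ) ⊆ ((S ∪ F : Finset ℕ) : Set ℕ) := by
      rintro p ⟨h3, h4, h5⟩
      rw [Finset.mem_coe, Finset.mem_union]
      by_cases hp : p ∈ S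
      · exact Or.inl hp
      · right
        rw [hF, Finset.mem_filter, Finset.mem_range]
        exact ⟨by omega, ⟨h4, hp⟩, h5⟩
    refine (Set.ncard_le_ncard h10 (Finset.finite_toSet _)).trans ?_
    rw [Set.ncard_coe_finset]
    exact Finset.card_union_le _ _
  have h3 : (F.card : ℝ) ≤ √(N : ℝ) * T := by
    have h4 : ∑ p ∈ F, (√(p : ℝ))⁻¹ ≤ T := by
      have h5 : ∑ p ∈ F.subtype (fun p => (p.Prime ∧ p ∉ S) ∧ p ∈ E), (√((p : ℕ) : ℝ))⁻¹ ≤ T :=
        hsum.sum_le_tsum _ fun p _ => by positivity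
      rw [Finset.sum_subtype_eq_sum_filter (f := fun p : ℕ => (√(p : ℝ))⁻¹)] at h5
      have h6 : F.filter (fun p => (p.Prime ∧ p ∉ S) ∧ p ∈ E) = F := by
        rw [hF, Finset.filter_filter]
        exact Finset.filter_congr fun p _ => by tauto
      rwa [h6] at h5
    have h5 : (F.card : ℝ) ≤ ∑ p ∈ F, √(N : ℝ) * (√(p : ℝ))⁻¹ := by
      rw [← nsmul_one, ← Finset.sum_const]
      refine Finset.sum_le_sum fun p hp => ?_
      rw [hF, Finset.mem_filter, Finset.mem_range] at hp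
      have hp0 : (0 : ℝ) < p := by exact_mod_cast hp.2.1.1.pos
      have hpN : (p : ℝ) ≤ N := by
        have : p ≤ N := by omega
        exact_mod_cast this
      rw [← div_eq_mul_inv, one_le_div (Real.sqrt_pos.2 hp0)]
      exact Real.sqrt_le_sqrt hpN
    rw [← Finset.mul_sum] at h5
    exact h5.trans (mul_le_mul_of_nonneg_left h4 (Real.sqrt_nonneg _))
  have h4 : (cnt E N : ℝ) ≤ S.card + F.card := by exact_mod_cast h2
  have h5 : 0 ≤ √(N : ℝ) := Real.sqrt_nonneg _
  have h6 : (0 : ℝ) ≤ S.card := Nat.cast_nonneg _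
  nlinarith

end Pool.Agent.U849.TG
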